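import Pool.Agent.Run7.h526.BW.RoundS
import Pool.Agent.H350R3.MG.PLem

/-!
# General fat points of `ℙ^r` with arbitrary multiplicities

Let `r ≥ 2` and let `m 1, …, m k ≤ M` be arbitrary multiplicities of `k` general points of `ℙ^r`.

* If `∑ (m i) ^ r > d ^ r + 5 (4 M) ^ r` and `d ≥ 6 M`, there are no forms of degree `d` with these
  multiplicities (for `d < 6 M` there are none if this is so for `6 M` in place of `d`).
* If `∑ (m i + 3 r - 2) ^ r + 5 (4 (M + 3 r - 2)) ^ r ≤ d ^ r` and `d ≥ 6 (M + 3 r - 2)`, the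
  conditions imposed by the points on the forms of degree `d` are independent.

So the scheme imposes maximal conditions in both cases. The error term is `5 (4 M) ^ r`, independent
of the number of points. (In the starting result `AsymptoticRange` the power sums are compared with
`(1 ± ε) d ^ r`.)

The proof: a finite set of exponents can be cut in two by a hyperplane, and the points of one group
moved to infinity, if the exponents of each part are handled by the points of its group (`EmpS_join`,
`SurS_join`). The points are put in groups of `10 * 4 ^ (r - 1)` consecutive ones (ordered by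
multiplicity); in a group, the multiplicities are made equal. For one group the toric degenerations
of `TH3.IR` are sharp. The loss telescopes for the points with multiplicities in
`(M / 2 ^ (j + 1), M / 2 ^ j]`, and is a geometric series in `j`.
-/

set_option autoImplicit false

namespace Pool.Agent.Results.MP_1dafdd_ag.ArbitraryMultiplicities

open MvPolynomial
open scoped LinearAlgebra.Projectivization
open Pool.Agent.H350R3.MG

/-- `V_d(Γ)`: the forms of degree `d` vanishing to order at least `m i` at the `i`-th point. -/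
noncomputable def forms {r k : ℕ} (d : ℕ) (m : Fin k → ℕ) (P : Fin k → ℙ ℂ (Fin (r + 1) → ℂ)) :
    Submodule ℂ (MvPolynomial (Fin (r + 1)) ℂ) :=
  homogeneousSubmodule (Fin (r + 1)) ℂ d ⊓
    Submodule.restrictScalars ℂ (⨅ i, primeIdeal (P i) ^ m i : Ideal (MvPolynomial (Fin (r + 1)) ℂ))

/-- `Γ` imposes maximal conditions in degree `d`. -/
def ImposesMaximalConditions {r k : ℕ} (d : ℕ) (m : Fin k → ℕ)
    (P : Fin k → ℙ ℂ (Fin (r + 1) → ℂ)) : Prop :=
  (Module.finrank ℂ (forms d m P) : ℤ) =
    max 0 (((d + r).choose r : ℤ) - ∑ i, ((m i + r - 1).choose r : ℤ))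

lemma forms_eq {r k d : ℕ} (m : Fin k → ℕ) (v : Fin k → Fin (r + 1) → ℂ) (hv : ∀ i, v i ≠ 0) :
    forms d m (fun i => Projectivization.mk ℂ (v i) (hv i)) =
      Pool.Agent.H938R2.forms (r + 1) d m v := by
  unfold forms
  ext F
  rw [Submodule.mem_inf, Submodule.restrictScalars_mem, Submodule.mem_iInf,
    Pool.Agent.H938R2.mem_forms, mem_homogeneousSubmodule]
  have key : F.IsHomogeneous d → ∀ i,
      (F ∈ primeIdeal (Projectivization.mk ℂ (v i) (hv i)) ^ m i ↔
        Pool.Agent.H938R2.VanishesToOrder (m i) (v i) F) := by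
    intro hF i
    rw [primeIdeal_mk]
    exact Pool.Agent.TH176.FB.mem_pow_iff_vanishes (hv i) ((mem_homogeneousSubmodule _ _).2 hF)
  constructor
  · rintro ⟨h1, h2⟩
    exact ⟨h1, fun i => (key h1 i).1 (h2 i)⟩
  · rintro ⟨h1, h2⟩
    exact ⟨h1, fun i => (key h1 i).2 (h2 i)⟩

theorem of_emp {n k d : ℕ} {m : Fin k → ℕ}
    (h : Pool.Agent.Y55.Col.Emp (n + 1) (d + 1) ((Finset.univ : Finset (Fin k)).val.map m)) :
    Generally (fun P : Fin k → ℙ ℂ (Fin (n + 1 + 1) → ℂ) =>
      forms d m P = ⊥ ∧ ImposesMaximalConditions d m P) := by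
  obtain ⟨D, hD, h⟩ := (Pool.Agent.Y55.Col.general_of_emp h).and
    (Pool.Agent.H938R2.forGeneral_ne_zero (by omega))
  refine generally_of_poly D hD fun v hv hp => ?_
  obtain ⟨h1, h2⟩ := h v hp
  have h3 := Pool.Agent.H938R2.finrank_forms_ge (n + 1) d m v h2
  unfold ImposesMaximalConditions
  rw [forms_eq _ v hv, h1, finrank_bot]
  rw [h1, finrank_bot, zero_add] at h3
  refine ⟨rfl, ?_⟩
  rw [max_eq_left]
  · simp
  · rw [sub_nonpos]
    exact_mod_cast h3

theorem of_ind {n k d : ℕ} {m : Fin k → ℕ}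
    (h : Pool.Agent.Y55.Col.Ind n (d + 1) ((Finset.univ : Finset (Fin k)).val.map m)) :
    Generally (fun P : Fin k → ℙ ℂ (Fin (n + 1 + 1) → ℂ) =>
      Module.finrank ℂ (forms d m P) + ∑ i, (m i + (n + 1) - 1).choose (n + 1) =
        (d + (n + 1)).choose (n + 1) ∧ ImposesMaximalConditions d m P) := by
  obtain ⟨D, hD, h⟩ := Pool.Agent.Y55.Col.general_of_ind h
  refine generally_of_poly D hD fun v hv hp => ?_
  have h1 : Module.finrank ℂ (Pool.Agent.H938R2.forms (n + 1 + 1) d m v) +
      ∑ i, (m i + n).choose (n + 1) = (d + (n + 1)).choose (n + 1) := h v hp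
  have e : ∀ i, m i + (n + 1) - 1 = m i + n := fun i => by omega
  unfold ImposesMaximalConditions
  rw [forms_eq _ v hv]
  simp only [e]
  refine ⟨h1, ?_⟩
  have h2 : (Module.finrank ℂ (Pool.Agent.H938R2.forms (n + 1 + 1) d m v) : ℤ) +
      ∑ i, ((m i + n).choose (n + 1) : ℤ) = ((d + (n + 1)).choose (n + 1) : ℤ) := by
    exact_mod_cast h1
  rw [max_eq_right]
  · linarith
  · have : (0 : ℤ) ≤ (Module.finrank ℂ (Pool.Agent.H938R2.forms (n + 1 + 1) d m v) : ℤ) :=
      Int.natCast_nonneg _
    linarith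

/-- Let `r ≥ 2` and `m i ≤ M` for all `i`. If `max (d, 6 M) ^ r + 5 (4 M) ^ r < ∑ (m i) ^ r`, then for
general points of `ℙ^r` there are no forms of degree `d` with the multiplicities `m i`. If
`d ≥ 6 (M + 3 r - 2)` and `∑ (m i + 3 r - 2) ^ r + 5 (4 (M + 3 r - 2)) ^ r ≤ d ^ r`, the conditions
are independent. In both cases `Γ` imposes maximal conditions in degree `d`. -/
theorem result (r k d M : ℕ) (hr : 2 ≤ r) (m : Fin k → ℕ) (hm : ∀ i, m i ≤ M) :
    ((max d (6 * M)) ^ r + 5 * (4 * M) ^ r < ∑ i, (m i) ^ r →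
      Generally (fun P : Fin k → ℙ ℂ (Fin (r + 1) → ℂ) =>
        forms d m P = ⊥ ∧ ImposesMaximalConditions d m P)) ∧
    (6 * (M + (3 * r - 2)) ≤ d →
      ∑ i, (m i + (3 * r - 2)) ^ r + 5 * (4 * (M + (3 * r - 2))) ^ r ≤ d ^ r →
      Generally (fun P : Fin k → ℙ ℂ (Fin (r + 1) → ℂ) =>
        Module.finrank ℂ (forms d m P) + ∑ i, (m i + r - 1).choose r = (d + r).choose r ∧
          ImposesMaximalConditions d m P)) := by
  obtain ⟨n, rfl⟩ : ∃ n, r = n + 1 := ⟨r - 1, by omega⟩
  have hn : 1 ≤ n := by omega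
  have e3 : 3 * (n + 1) - 2 = 3 * n + 1 := by omega
  rw [e3]
  have hmem : ∀ a ∈ (Finset.univ : Finset (Fin k)).val.map m, a ≤ M := by
    intro a ha
    obtain ⟨i, _, rfl⟩ := Multiset.mem_map.1 ha
    exact hm i
  constructor
  · intro h
    have hM0 : 0 < M := by
      by_contra hcon
      have h0 : M = 0 := by omega
      have h1 : ∀ i, m i = 0 := fun i => by have := hm i; omega
      simp [h0, h1] at h
    refine of_emp (Run7.h526.BW.emp_any hn (b := M) (D := ((max d (6 * M) : ℕ) : ℝ))
      (by exact_mod_cast hM0) (fun a ha => by exact_mod_cast hmem a ha) ?_ ?_ ?_)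
    · exact_mod_cast le_max_right d (6 * M)
    · exact_mod_cast le_max_left d (6 * M)
    · have h1 : Run7.h526.BW.ps (n + 1) ((Finset.univ : Finset (Fin k)).val.map m) =
          ((∑ i, (m i) ^ (n + 1) : ℕ) : ℝ) := by
        unfold Run7.h526.BW.ps
        rw [Multiset.map_map]
        push_cast
        rfl
      rw [h1]
      exact_mod_cast h
  · intro hd h
    refine of_ind (Run7.h526.BW.ind_any hn (b := (M : ℝ) + (3 * n + 1)) (by positivity)
      (fun a ha => ?_) ?_ ?_)
    · have : (a : ℝ) ≤ M := by exact_mod_cast hmem a ha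
      linarith
    · exact_mod_cast hd
    · have h1 : Run7.h526.BW.qs n ((Finset.univ : Finset (Fin k)).val.map m) =
          ((∑ i, (m i + (3 * n + 1)) ^ (n + 1) : ℕ) : ℝ) := by
        unfold Run7.h526.BW.qs
        rw [Multiset.map_map]
        push_cast
        rfl
      rw [h1]
      exact_mod_cast h

end Pool.Agent.Results.MP_1dafdd_ag.ArbitraryMultiplicities
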