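import Pool.Agent.Run7.h526.BW.LenS
import Pool.Agent.H350R3.MG.PLem

/-!
# General fat points of `ℙ^r` with arbitrary multiplicities: the length decides

Let `r ≥ 2`. There is a constant `C` with the following property. Let `m 1, …, m k ≤ M` be arbitrary
multiplicities of `k` general points of `ℙ^r`, let `Γ` be the scheme of the fat points, and `d ≥ 0`. If
the length of `Γ` and the dimension `binom (d + r) r` of the space of forms of degree `d` differ by at
least `C (M ^ r + d ^ (r - 1 / r ^ 2))`, then `Γ` imposes maximal conditions in degree `d`.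

So for each of the (many) tuples with `M = o(d)` the expected dimension is decided by the length with
an error which is `o(d ^ r)`. (In the starting result `AsymptoticRange` the power sums are compared
with `(1 ± ε) d ^ r`, for `M ≤ σ(ε) d`.)

The proof: with `z = d ^ (1 / r ^ 2)`, the points of multiplicity at most `μ ≈ z` are put in groups;
for each group the starting result `EffectiveAllDimensions` is sharp in a degree `D = (r μ) ^ (r (r + 1) / 2)`,
so the group can be replaced by (and specialised to) one point of multiplicity `D + 1`. For the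
multiplicities thus obtained (all `> μ`) the length and the sum of the `r`-th powers differ by a factor
`1 + O(1 / μ)` and the result `ArbitraryMultiplicities` is applied.
-/

set_option autoImplicit false

namespace Pool.Agent.Results.MP_1dafdd_ag.LengthThreshold

open MvPolynomial
open scoped LinearAlgebra.Projectivization
open Pool.Agent.H350R3.MG

/-- `V_d(Γ)`: the forms of degree `d` vanishing to order at least `m i` at the `i`-th point. -/
noncomputable def forms {r k : ℕ} (d : ℕ) (m : Fin k → ℕ) (P : Fin k → ℙ ℂ (Fin (r + 1) → ℂ)) :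
    Submodule ℂ (MvPolynomial (Fin (r + 1)) ℂ) :=
  homogeneousSubmodule (Fin (r + 1)) ℂ d ⊓
    Submodule.restrictScalars ℂ (⨅ i, primeIdeal (P i) ^ m i : Ideal (MvPolynomial (Fin (r + 1)) ℂ))

/-- `Γ` imposes maximal conditions in degree `d`. -/
def ImposesMaximalConditions {r k : ℕ} (d : ℕ) (m : Fin k → ℕ)
    (P : Fin k → ℙ ℂ (Fin (r + 1) → ℂ)) : Prop :=
  (Module.finrank ℂ (forms d m P) : ℤ) =
    max 0 (((d + r).choose r : ℤ) - ∑ i, ((m i + r - 1).choose r : ℤ))

lemma forms_eq {r k d : ℕ} (m : Fin k → ℕ) (v : Fin k → Fin (r + 1) → ℂ) (hv : ∀ i, v i ≠ 0) :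
    forms d m (fun i => Projectivization.mk ℂ (v i) (hv i)) =
      Pool.Agent.H938R2.forms (r + 1) d m v := by
  unfold forms
  ext F
  rw [Submodule.mem_inf, Submodule.restrictScalars_mem, Submodule.mem_iInf,
    Pool.Agent.H938R2.mem_forms, mem_homogeneousSubmodule]
  have key : F.IsHomogeneous d → ∀ i,
      (F ∈ primeIdeal (Projectivization.mk ℂ (v i) (hv i)) ^ m i ↔
        Pool.Agent.H938R2.VanishesToOrder (m i) (v i) F) := by
    intro hF i
    rw [primeIdeal_mk]
    exact Pool.Agent.TH176.FB.mem_pow_iff_vanishes (hv i) ((mem_homogeneousSubmodule _ _).2 hF)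
  constructor
  · rintro ⟨h1, h2⟩
    exact ⟨h1, fun i => (key h1 i).1 (h2 i)⟩
  · rintro ⟨h1, h2⟩
    exact ⟨h1, fun i => (key h1 i).2 (h2 i)⟩

theorem of_emp {n k d : ℕ} {m : Fin k → ℕ}
    (h : Pool.Agent.Y55.Col.Emp (n + 1) (d + 1) ((Finset.univ : Finset (Fin k)).val.map m)) :
    Generally (fun P : Fin k → ℙ ℂ (Fin (n + 1 + 1) → ℂ) =>
      forms d m P = ⊥ ∧ ImposesMaximalConditions d m P) := by
  obtain ⟨D, hD, h⟩ := (Pool.Agent.Y55.Col.general_of_emp h).and
    (Pool.Agent.H938R2.forGeneral_ne_zero (by omega))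
  refine generally_of_poly D hD fun v hv hp => ?_
  obtain ⟨h1, h2⟩ := h v hp
  have h3 := Pool.Agent.H938R2.finrank_forms_ge (n + 1) d m v h2
  unfold ImposesMaximalConditions
  rw [forms_eq _ v hv, h1, finrank_bot]
  rw [h1, finrank_bot, zero_add] at h3
  refine ⟨rfl, ?_⟩
  rw [max_eq_left]
  · simp
  · rw [sub_nonpos]
    exact_mod_cast h3

theorem of_dim {n k d : ℕ} {m : Fin k → ℕ} {P : Fin k → ℙ ℂ (Fin (n + 1 + 1) → ℂ)}
    (h1 : Module.finrank ℂ (forms d m P) + ∑ i, (m i + n).choose (n + 1) =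
      (d + (n + 1)).choose (n + 1)) :
    Module.finrank ℂ (forms d m P) + ∑ i, (m i + (n + 1) - 1).choose (n + 1) =
      (d + (n + 1)).choose (n + 1) ∧ ImposesMaximalConditions d m P := by
  have e : ∀ i, m i + (n + 1) - 1 = m i + n := fun i => by omega
  unfold ImposesMaximalConditions
  simp only [e]
  refine ⟨h1, ?_⟩
  have h2 : (Module.finrank ℂ (forms d m P) : ℤ) +
      ∑ i, ((m i + n).choose (n + 1) : ℤ) = ((d + (n + 1)).choose (n + 1) : ℤ) := by
    exact_mod_cast h1
  rw [max_eq_right]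
  · linarith
  · have : (0 : ℤ) ≤ (Module.finrank ℂ (forms d m P) : ℤ) := Int.natCast_nonneg _
    linarith

theorem of_ind {n k d : ℕ} {m : Fin k → ℕ}
    (h : Pool.Agent.Y55.Col.Ind n (d + 1) ((Finset.univ : Finset (Fin k)).val.map m)) :
    Generally (fun P : Fin k → ℙ ℂ (Fin (n + 1 + 1) → ℂ) =>
      Module.finrank ℂ (forms d m P) + ∑ i, (m i + (n + 1) - 1).choose (n + 1) =
        (d + (n + 1)).choose (n + 1) ∧ ImposesMaximalConditions d m P) := by
  obtain ⟨D, hD, h⟩ := Pool.Agent.Y55.Col.general_of_ind h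
  refine generally_of_poly D hD fun v hv hp => of_dim ?_
  rw [forms_eq _ v hv]
  exact h v hp

theorem of_zero {n k d : ℕ} {m : Fin k → ℕ} (hm : ∀ i, m i = 0) :
    Generally (fun P : Fin k → ℙ ℂ (Fin (n + 1 + 1) → ℂ) =>
      Module.finrank ℂ (forms d m P) + ∑ i, (m i + (n + 1) - 1).choose (n + 1) =
        (d + (n + 1)).choose (n + 1) ∧ ImposesMaximalConditions d m P) := by
  refine generally_of_poly 1 one_ne_zero fun v hv _ => of_dim ?_
  have h1 : forms d m (fun i => Projectivization.mk ℂ (v i) (hv i)) =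
      homogeneousSubmodule (Fin (n + 1 + 1)) ℂ d := by
    unfold forms
    simp only [hm, pow_zero, Ideal.one_eq_top, iInf_top]
    ext F
    simp
  rw [h1, Pool.Agent.TH206.Fro.dim_thm (n + 2) d ℂ, Pool.Agent.TH176.FB.card_Mon_choose (n + 1) d]
  simp [hm]

/-- **Theorem.** Let `r ≥ 2`. There is a `C` such that for all multiplicities `m i ≤ M` (`i < k`) and
all `d` the following holds for general points of `ℙ^r`. If
`binom (d + r) r + C (M ^ r + d ^ (r - 1 / r ^ 2)) ≤ length Γ`, there are no forms of degree `d` with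
the multiplicities `m i`; if `length Γ + C (M ^ r + d ^ (r - 1 / r ^ 2)) ≤ binom (d + r) r`, the
conditions are independent. In both cases `Γ` imposes maximal conditions in degree `d`. -/
theorem result (r : ℕ) (hr : 2 ≤ r) : ∃ C : ℝ, 0 < C ∧
    ∀ (k d M : ℕ) (m : Fin k → ℕ), (∀ i, m i ≤ M) →
      (((d + r).choose r : ℝ) + C * ((M : ℝ) ^ r + (d : ℝ) ^ ((r : ℝ) - 1 / (r : ℝ) ^ 2)) ≤
          ∑ i, ((m i + r - 1).choose r : ℝ) →
        Generally (fun P : Fin k → ℙ ℂ (Fin (r + 1) → ℂ) =>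
          forms d m P = ⊥ ∧ ImposesMaximalConditions d m P)) ∧
      (∑ i, ((m i + r - 1).choose r : ℝ) +
            C * ((M : ℝ) ^ r + (d : ℝ) ^ ((r : ℝ) - 1 / (r : ℝ) ^ 2)) ≤ ((d + r).choose r : ℝ) →
        Generally (fun P : Fin k → ℙ ℂ (Fin (r + 1) → ℂ) =>
          Module.finrank ℂ (forms d m P) + ∑ i, (m i + r - 1).choose r = (d + r).choose r ∧
            ImposesMaximalConditions d m P)) := by
  obtain ⟨n, rfl⟩ : ∃ n, r = n + 1 := ⟨r - 1, by omega⟩
  have hn : 1 ≤ n := by omega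
  obtain ⟨K₁, hK₁, HE⟩ := Run7.h526.BW.lenE hn
  obtain ⟨K₂, hK₂, HS⟩ := Run7.h526.BW.lenS hn
  refine ⟨2 * (K₁ + K₂), by positivity, ?_⟩
  intro k d M m hm
  have hfac : (1 : ℝ) ≤ ((n + 1).factorial : ℝ) := by
    exact_mod_cast Nat.one_le_iff_ne_zero.2 (Nat.factorial_ne_zero _)
  obtain ⟨W, hW⟩ : ∃ W : ℝ, W = (M : ℝ) ^ (n + 1) +
    (d : ℝ) ^ (((n + 1 : ℕ) : ℝ) - 1 / ((n + 1 : ℕ) : ℝ) ^ 2) := ⟨_, rfl⟩
  rw [← hW]
  have hd0 : 0 ≤ (d : ℝ) ^ (((n + 1 : ℕ) : ℝ) - 1 / ((n + 1 : ℕ) : ℝ) ^ 2) :=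
    Real.rpow_nonneg (Nat.cast_nonneg d) _
  have hW0 : 0 ≤ W := by rw [hW]; positivity
  have e : ∀ i, m i + (n + 1) - 1 = m i + n := fun i => by omega
  have hln : ((Run7.h526.BW.ln n ((Finset.univ : Finset (Fin k)).val.map m) : ℕ) : ℝ) =
      ∑ i, ((m i + (n + 1) - 1).choose (n + 1) : ℝ) := by
    have e1 : Run7.h526.BW.ln n ((Finset.univ : Finset (Fin k)).val.map m) =
        ∑ i, (m i + n).choose (n + 1) := by
      unfold Run7.h526.BW.ln
      rw [Multiset.map_map]
      rfl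
    rw [e1]
    simp only [e]
    push_cast
    rfl
  have hcnt : ((Pool.Agent.Y55.Col.cnt n (d + 1) : ℕ) : ℝ) =
      ((d + (n + 1)).choose (n + 1) : ℝ) := by
    unfold Pool.Agent.Y55.Col.cnt
    congr 2
    omega
  have hlow := Run7.h526.BW.cnt_lower n (d + 1)
  have hup := Run7.h526.BW.cnt_upper n (d + 1)
  rw [hcnt] at hlow hup
  rcases Nat.eq_zero_or_pos M with hM | hM
  · -- no points
    have hm0 : ∀ i, m i = 0 := fun i => by have := hm i; omega
    refine ⟨fun h => ?_, fun _ => of_zero hm0⟩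
    exfalso
    have h1 : ∑ i, ((m i + (n + 1) - 1).choose (n + 1) : ℝ) = 0 := by
      refine Finset.sum_eq_zero fun i _ => ?_
      rw [hm0 i]
      simp
    rw [h1] at h
    have h2 : (0 : ℝ) < ((d + (n + 1)).choose (n + 1) : ℝ) := by
      exact_mod_cast Nat.choose_pos (by omega)
    have h3 : 0 ≤ 2 * (K₁ + K₂) * W := by positivity
    linarith
  · have hmem : ∀ a ∈ (Finset.univ : Finset (Fin k)).val.map m, a ≤ M := by
      intro a ha
      obtain ⟨i, _, rfl⟩ := Multiset.mem_map.1 ha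
      exact hm i
    -- the parameter
    obtain ⟨z, hz1, hzd, hzW⟩ : ∃ z : ℝ, 1 ≤ z ∧ (d : ℝ) ≤ z ^ ((n + 1) ^ 2) ∧
        (M : ℝ) ^ (n + 1) + z ^ ((n + 1) ^ 3 - 1) ≤ 2 * W := by
      rcases Nat.eq_zero_or_pos d with hd | hd
      · refine ⟨1, le_rfl, by rw [hd]; simp, ?_⟩
        rw [one_pow]
        have h1 : (1 : ℝ) ≤ (M : ℝ) ^ (n + 1) := one_le_pow₀ (by exact_mod_cast hM)
        rw [hW]
        linarith
      · have hdR : (1 : ℝ) ≤ d := by exact_mod_cast hd
        refine ⟨(d : ℝ) ^ (1 / ((n + 1 : ℕ) : ℝ) ^ 2), Real.one_le_rpow hdR (by positivity), ?_, ?_⟩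
        · rw [← Real.rpow_natCast, ← Real.rpow_mul (by linarith)]
          have : 1 / ((n + 1 : ℕ) : ℝ) ^ 2 * (((n + 1) ^ 2 : ℕ) : ℝ) = 1 := by
            push_cast
            field_simp
          rw [this, Real.rpow_one]
        · rw [← Real.rpow_natCast ((d : ℝ) ^ (1 / ((n + 1 : ℕ) : ℝ) ^ 2)),
            ← Real.rpow_mul (by linarith)]
          have : 1 / ((n + 1 : ℕ) : ℝ) ^ 2 * (((n + 1) ^ 3 - 1 : ℕ) : ℝ) =
              ((n + 1 : ℕ) : ℝ) - 1 / ((n + 1 : ℕ) : ℝ) ^ 2 := by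
            rw [Nat.cast_sub (Nat.one_le_pow _ _ (by omega))]
            push_cast
            field_simp
          rw [this]
          have hM0 : 0 ≤ (M : ℝ) ^ (n + 1) := by positivity
          rw [hW]
          linarith
    obtain ⟨U, hU⟩ : ∃ U : ℝ, U = (M : ℝ) ^ (n + 1) + z ^ ((n + 1) ^ 3 - 1) := ⟨_, rfl⟩
    have hU0 : 0 ≤ U := by rw [hU]; positivity
    constructor
    · intro h
      refine of_emp (HE d M z _ hz1 hzd hM hmem ?_)
      rw [hln, ← hU]
      rw [← hU] at hzW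
      have h1 := mul_le_mul_of_nonneg_left h (show (0 : ℝ) ≤ ((n + 1).factorial : ℝ) by linarith)
      have h2 : 2 * (K₁ + K₂) * W ≤ ((n + 1).factorial : ℝ) * (2 * (K₁ + K₂) * W) :=
        le_mul_of_one_le_left (by positivity) hfac
      have h3 : (d : ℝ) ^ (n + 1) ≤ ((d + 1 : ℕ) : ℝ) ^ (n + 1) :=
        pow_le_pow_left₀ (Nat.cast_nonneg d) (by push_cast; linarith) _
      have h4 : K₁ * U ≤ K₁ * (2 * W) := mul_le_mul_of_nonneg_left hzW hK₁.le
      have h5 : 0 ≤ K₂ * W := by positivity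
      rw [mul_add] at h1
      linarith
    · intro h
      refine of_ind (HS d M z _ hz1 hzd hM hmem ?_)
      rw [hln, ← hU]
      rw [← hU] at hzW
      have h1 := mul_le_mul_of_nonneg_left h (show (0 : ℝ) ≤ ((n + 1).factorial : ℝ) by linarith)
      have h2 : 2 * (K₁ + K₂) * W ≤ ((n + 1).factorial : ℝ) * (2 * (K₁ + K₂) * W) :=
        le_mul_of_one_le_left (by positivity) hfac
      have h3 : (((d + 1 : ℕ) : ℝ) + n) ^ (n + 1) = ((d : ℝ) + (n + 1)) ^ (n + 1) := by
        push_cast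
        ring
      have h4 : K₂ * U ≤ K₂ * (2 * W) := mul_le_mul_of_nonneg_left hzW hK₂.le
      have h5 : 0 ≤ K₁ * W := by positivity
      rw [mul_add] at h1
      rw [h3] at hup
      linarith

end Pool.Agent.Results.MP_1dafdd_ag.LengthThreshold
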