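import Mathlib
import Pool.Agent.Run7.h388.RM.Near
import Pool.Agent.Run7.h388.RM.Joint
import Pool.Agent.Run7.h388.RM.Cov
import Pool.Agent.Run7.h388.RM.Sure

set_option autoImplicit false

/-!
# Random multiplicities, and near-uniform multiplicities with a random sum

A random natural number has a finitely supported distribution `μ`. `Always Q` says that all random numbers for which the exponential
sums `E e(θ m)` at certain finitely many irrational `θ` and the probability of small values are small have the property `Q`.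

(1) With a probability of at least `10 ^ (-65)` the random multiplicity `m` is good for ALL numbers of points at once: for EVERY `n ≥ 10`
and EVERY degree `d` the scheme of `n` general points of multiplicity `m` imposes maximal conditions in degree `d`.

(2) With a probability of at least `0.815` this holds in every degree at once for `n = 10`, `11`, `13`, `15`, `21`, all squares `n ≥ 16`
and all `n ≥ 37`. For a single `n ≥ 10` it fails with a probability of at most `badUniform n + δ`, and `badUniform n < 1`.

(3) For every `n ≥ 10` and `δ > 0`, if the random number is the SUM of the multiplicities: with a probability of at least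
`1 - bad n - δ` all schemes whose multiplicities are `m` or `m + 1` (at arbitrary positions) and have this sum have the property in every
degree. `bad n < 1`, `bad n = 0` for squares, `bad 10 < 0.163`.

(4) (`CoversMore`) These bounds hold in particular for all large terms of all sequences of random numbers whose exponential sums at the
irrational frequencies tend to zero and which do not concentrate on a single number; for random numbers with `k ≥ k₀` independent
digits; for the random members of very thin families of residues; for the positions of random walks with `k ≥ k₀` independent steps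
none of which is almost constant; for the binomial laws with `k ≥ k₀` trials; for the random members of progressions with a given
difference (for instance intervals) of length `≥ L₀`, uniformly in the first term; and they remain true if an arbitrary independent
random number is added.

(5) Almost surely, the bounds in (1), (2) and (3) hold for the frequencies among the first `K` terms, for all large `K`, of the paths
`c₀ + κ (X 0 + ... + X (k - 1))` of all random walks with independent steps each of which takes two fixed values `a ≠ b` with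
probabilities at least `η > 0` (`Steps`; no other assumption), and of all sequences of independent random natural numbers `Y k` such
that `P (Y k = m) → 0` for every `m` and `E e(θ Y k) → 0` for every irrational `θ` (`Spread`).

Proof. The plane systems and the windows are those of helper141 and helper885 (`Pool.Agent.N141.SG`, `Pool.Agent.TH885.NW`) and, for
eleven and fifteen points, `Pool.Agent.N388.EFW`; the master theorem for random integers is `Pool.Agent.N794.DG` (starting tree); near-uniform sums, the joint statement (2), random walks, binomial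
laws, independent perturbations and (5) are new (`Pool.Agent.Run7.h388.RM`): the second moments of the exponential sums along a random
walk are `O(K)` at every irrational frequency, so that the empirical distributions of almost every path have eventually all properties
in the sense of `Always`.
-/

namespace Pool.Agent.Results.MP_1dafdd_ag.RandomMultiplicities

open MvPolynomial Filter
open Pool.Agent.N794.DG (Always meas)
open Pool.Agent.Run7.h388.RM (CoversMore Most Surely hits)

/-- Forms of degree `d` vanishing to order at least `w i` at the points `(P i 0 : P i 1 : 1)`. -/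
noncomputable def forms {n : ℕ} (P : Fin n → Fin 2 → ℂ) (d : ℕ) (w : Fin n → ℕ) :
    Submodule ℂ (MvPolynomial (Fin 3) ℂ) :=
  homogeneousSubmodule (Fin 3) ℂ d ⊓
    Submodule.restrictScalars ℂ
      (⨅ i : Fin n, (Ideal.span {X 0 - C (P i 0) * X 2, X 1 - C (P i 1) * X 2} :
        Ideal (MvPolynomial (Fin 3) ℂ)) ^ (w i))

/-- The scheme of the points `P i` with the multiplicities `w i` imposes maximal conditions in the
degree `d`. -/
def Imposes {n : ℕ} (P : Fin n → Fin 2 → ℂ) (d : ℕ) (w : Fin n → ℕ) : Prop :=
  (Module.finrank ℂ ↥(forms P d w) : ℤ) =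
    max 0 (((d + 2).choose 2 : ℤ) - ∑ i, ((w i + 1).choose 2 : ℤ))

/-- For general points (one nonempty open set for all degrees) the scheme with the multiplicities `w`
imposes maximal conditions in every degree. -/
def Maximal {n : ℕ} (w : Fin n → ℕ) : Prop :=
  ∃ F : MvPolynomial (Fin n × Fin 2) ℂ, F ≠ 0 ∧ ∀ P : Fin n → Fin 2 → ℂ,
    MvPolynomial.eval (fun ij : Fin n × Fin 2 => P ij.1 ij.2) F ≠ 0 → ∀ d : ℕ, Imposes P d w

/-- The multiplicity `m ≥ 1` is good for every number `n ≥ 10` of points and every degree. -/
def Holds (m : ℕ) : Prop := 1 ≤ m ∧ ∀ n : ℕ, 10 ≤ n → Maximal (fun _ : Fin n => m)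

/-- All vectors of `n` positive multiplicities with sum `W` which take at most two consecutive values
`m`, `m + 1` are good in every degree. -/
def Good (n W : ℕ) : Prop :=
  ∀ m : ℕ, 0 < m → ∀ w : Fin n → ℕ, (∀ i, w i = m ∨ w i = m + 1) → ∑ i, w i = W → Maximal w

open Classical in
/-- The bound for the proportion of the bad sums for `n` points. -/
noncomputable def bad (n : ℕ) : ℝ :=
  if IsSquare n then 0
  else (min (√(n : ℝ) - 3) (2 / 3 + 9 / (4 * √(n : ℝ))) +
    min (√(n : ℝ) - 3) (2 / 3 + 1 / (4 * √(n : ℝ)))) / 2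

open Classical in
/-- The bound for the probability of the bad multiplicities for `n` points of the same multiplicity. -/
noncomputable def badUniform (n : ℕ) : ℝ :=
  if 37 ≤ n ∨ n = 13 ∨ n = 21 ∨ IsSquare n then 0
  else if n = 11 ∨ n = 15 then (√(n : ℝ) - 3) ^ 2 / (6 * (√(n : ℝ) + 3))
  else (min (√(n : ℝ) - 3) (2 / 3 + 9 / (4 * √(n : ℝ))) +
    min (√(n : ℝ) - 3) (2 / 3 + 1 / (4 * √(n : ℝ)))) / 2

theorem maximal_of {n : ℕ} {w : Fin n → ℕ} (h : Pool.Agent.N141.SG.ExN w) : Maximal w := by
  obtain ⟨F, hF, hF'⟩ := h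
  refine ⟨F.map (algebraMap ℚ ℂ), Pool.Agent.H932R3.map_ne_zero_of hF, fun P hP d => ?_⟩
  rw [MvPolynomial.eval_map] at hP
  have h1 := hF' P hP d
  unfold Pool.Agent.H932R3.ExpDim at h1
  unfold Imposes forms
  rw [h1]
  have e : ∑ i, ((w i + 1).choose 2 : ℤ) = ((∑ i, (w i + 1).choose 2 : ℕ) : ℤ) := by
    push_cast
    rfl
  rw [e]
  omega

theorem bad_ten : bad 10 < 0.163 := by
  have h1 : √((10 : ℕ) : ℝ) < 3.163 := by
    rw [Real.sqrt_lt' (by norm_num)]
    norm_num
  have h0 : ¬ IsSquare 10 := by
    rintro ⟨k, hk⟩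
    have : k ≤ 3 := by nlinarith
    interval_cases k <;> omega
  unfold bad
  rw [if_neg h0]
  have h2 := min_le_left (√((10 : ℕ) : ℝ) - 3) (2 / 3 + 9 / (4 * √((10 : ℕ) : ℝ)))
  have h3 := min_le_left (√((10 : ℕ) : ℝ) - 3) (2 / 3 + 1 / (4 * √((10 : ℕ) : ℝ)))
  linarith

theorem holds_of {m : ℕ} (hm : 1 ≤ m) (h : Pool.Agent.N141.SG.Tgt (m : ℕ)) : Holds m :=
  ⟨hm, fun _ hn => maximal_of (w := fun _ => m) (Pool.Agent.N141.SG.every h hm hn)⟩

theorem good_of {n W : ℕ} (h : Pool.Agent.N141.SG.GoodN n W) : Good n W :=
  fun m hm w hw hsum => maximal_of (h m hm w hw hsum)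

theorem uniform_of {n m : ℕ} (h : Pool.Agent.N141.SG.Ex n m) : Maximal (fun _ : Fin n => m) :=
  maximal_of (w := fun _ => m) h

/-- **Main result.** -/
theorem result :
    (Always fun μ => 1 / 10 ^ 65 ≤ meas μ Holds) ∧
    (Always fun μ => 0.815 ≤ meas μ fun m => 1 ≤ m ∧ ∀ n : ℕ, 10 ≤ n → Most n → Maximal (fun _ : Fin n => m)) ∧
    (∀ n : ℕ, 10 ≤ n → ∀ δ : ℝ, 0 < δ →
      Always fun μ => meas μ (fun m => ¬ Maximal (fun _ : Fin n => m)) ≤ badUniform n + δ) ∧
    (∀ n : ℕ, 10 ≤ n → ∀ δ : ℝ, 0 < δ → Always fun μ => meas μ (fun W => ¬ Good n W) ≤ bad n + δ) ∧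
    (∀ n : ℕ, 10 ≤ n → bad n < 1 ∧ badUniform n < 1) ∧ bad 10 < 0.163 ∧
    (badUniform 10 < 0.163 ∧ badUniform 11 < 0.0027 ∧ badUniform 12 < 0.465 ∧ badUniform 14 < 0.738 ∧
      badUniform 15 < 0.0185) ∧
    CoversMore ∧
    -- almost surely along random walks and independent sequences
    (Surely fun x =>
      (∀ᶠ K : ℕ in atTop, 1 / 10 ^ 65 * K ≤ hits x Holds K) ∧
      (∀ᶠ K : ℕ in atTop, 0.815 * K ≤ hits x (fun m => 1 ≤ m ∧ ∀ n : ℕ, 10 ≤ n → Most n → Maximal (fun _ : Fin n => m)) K) ∧
      (∀ n : ℕ, 10 ≤ n → ∀ δ : ℝ, 0 < δ → ∀ᶠ K : ℕ in atTop,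
        hits x (fun m => ¬ Maximal (fun _ : Fin n => m)) K ≤ (badUniform n + δ) * K) ∧
      (∀ n : ℕ, 10 ≤ n → ∀ δ : ℝ, 0 < δ → ∀ᶠ K : ℕ in atTop, hits x (fun W => ¬ Good n W) K ≤ (bad n + δ) * K)) := by
  have h1 : Always fun μ => 1 / 10 ^ 65 ≤ meas μ Holds :=
    Pool.Agent.N794.DG.always_tgt.mono fun μ hμ h =>
      h.trans (Pool.Agent.N794.DG.meas_mono hμ fun m hm => holds_of hm.1 hm.2)
  have h2 : Always fun μ => 0.815 ≤ meas μ fun m => 1 ≤ m ∧ ∀ n : ℕ, 10 ≤ n → Most n → Maximal (fun _ : Fin n => m) :=
    Pool.Agent.Run7.h388.RM.always_most.mono fun μ hμ h =>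
      h.trans (Pool.Agent.N794.DG.meas_mono hμ fun m hm => ⟨hm.1, fun n hn hmost => uniform_of (hm.2 n hn hmost)⟩)
  have h3 : ∀ n : ℕ, 10 ≤ n → ∀ δ : ℝ, 0 < δ →
      Always fun μ => meas μ (fun m => ¬ Maximal (fun _ : Fin n => m)) ≤ badUniform n + δ := fun n hn δ hδ =>
    (Pool.Agent.Run7.h388.RM.always_sharp hn hδ).mono fun μ hμ h =>
      (Pool.Agent.N794.DG.meas_mono hμ fun m hm h1 => hm (uniform_of h1)).trans h
  have h4 : ∀ n : ℕ, 10 ≤ n → ∀ δ : ℝ, 0 < δ → Always fun μ => meas μ (fun W => ¬ Good n W) ≤ bad n + δ := fun n hn δ hδ =>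
    (Pool.Agent.Run7.h388.RM.always_near hn hδ).mono fun μ hμ h =>
      (Pool.Agent.N794.DG.meas_mono hμ fun m hm h1 => hm (good_of h1)).trans h
  exact ⟨h1, h2, h3, h4, fun n hn => ⟨Pool.Agent.N141.SG.badN_lt hn, Pool.Agent.Run7.h388.RM.badS_lt hn⟩, bad_ten,
    Pool.Agent.Run7.h388.RM.badS_vals, Pool.Agent.Run7.h388.RM.coversMore,
    (Pool.Agent.Run7.h388.RM.surely_ge h1).and ((Pool.Agent.Run7.h388.RM.surely_ge h2).and
      ((Pool.Agent.Run7.h388.RM.surely_ten fun n hn => Pool.Agent.Run7.h388.RM.surely_le (h3 n hn)).and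
        (Pool.Agent.Run7.h388.RM.surely_ten fun n hn => Pool.Agent.Run7.h388.RM.surely_le (h4 n hn))))⟩

end Pool.Agent.Results.MP_1dafdd_ag.RandomMultiplicities
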