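import Pool.Agent.Run7.h526.BW.Rep
import Pool.Agent.H350R3.MG.PLem

/-!
# General fat points of `ℙ^r` in which every multiplicity occurs often

Let `r ≥ 2` and let `1 ≤ m 1, …, m k ≤ M` be multiplicities each of which occurs at least
`(5 / 2) (2 M / m i) ^ r` times (for instance, if all are `≥ M / 2`: at least `(5 / 2) 4 ^ r` times).

* If `d ≥ 6 M` and `∑ (m i) ^ r > d ^ r`, there are no forms of degree `d` with these multiplicities
  at `k` general points of `ℙ^r` (for `d < 6 M` there are none if `∑ (m i) ^ r > (6 M) ^ r`).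
* If `d ≥ 6 (M + 3 r - 2)` and `∑ (m i + 3 r - 2) ^ r ≤ d ^ r`, the conditions imposed by the points on
  the forms of degree `d` are independent.

In both cases the scheme imposes maximal conditions. The hypothesis does not change if all `m i` are
multiplied by `t`; so the first bound, the inequality of Nagata and Iarrobino for unequal
multiplicities, is sharp: for `d ^ r > ∑ (m i) ^ r`, `d ≥ 6 M + 1`, the second part gives forms of
degree `t d` with the multiplicities `t * m i`, `t` large.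

The proof: a finite set of exponents can be cut in two by a hyperplane, and the points of one group
moved to infinity (`EmpS_join`, `SurS_join`). The toric degenerations of `TH3.IR` are sharp for the
points of each multiplicity, and the parts are similar at the height `2 M`, so that there is no loss.
-/

set_option autoImplicit false

namespace Pool.Agent.Results.MP_1dafdd_ag.RepeatedMultiplicities

open MvPolynomial
open scoped LinearAlgebra.Projectivization
open Pool.Agent.H350R3.MG

/-- `V_d(Γ)`: the forms of degree `d` vanishing to order at least `m i` at the `i`-th point. -/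
noncomputable def forms {r k : ℕ} (d : ℕ) (m : Fin k → ℕ) (P : Fin k → ℙ ℂ (Fin (r + 1) → ℂ)) :
    Submodule ℂ (MvPolynomial (Fin (r + 1)) ℂ) :=
  homogeneousSubmodule (Fin (r + 1)) ℂ d ⊓
    Submodule.restrictScalars ℂ (⨅ i, primeIdeal (P i) ^ m i : Ideal (MvPolynomial (Fin (r + 1)) ℂ))

/-- `Γ` imposes maximal conditions in degree `d`. -/
def ImposesMaximalConditions {r k : ℕ} (d : ℕ) (m : Fin k → ℕ)
    (P : Fin k → ℙ ℂ (Fin (r + 1) → ℂ)) : Prop :=
  (Module.finrank ℂ (forms d m P) : ℤ) =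
    max 0 (((d + r).choose r : ℤ) - ∑ i, ((m i + r - 1).choose r : ℤ))

lemma forms_eq {r k d : ℕ} (m : Fin k → ℕ) (v : Fin k → Fin (r + 1) → ℂ) (hv : ∀ i, v i ≠ 0) :
    forms d m (fun i => Projectivization.mk ℂ (v i) (hv i)) =
      Pool.Agent.H938R2.forms (r + 1) d m v := by
  unfold forms
  ext F
  rw [Submodule.mem_inf, Submodule.restrictScalars_mem, Submodule.mem_iInf,
    Pool.Agent.H938R2.mem_forms, mem_homogeneousSubmodule]
  have key : F.IsHomogeneous d → ∀ i,
      (F ∈ primeIdeal (Projectivization.mk ℂ (v i) (hv i)) ^ m i ↔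
        Pool.Agent.H938R2.VanishesToOrder (m i) (v i) F) := by
    intro hF i
    rw [primeIdeal_mk]
    exact Pool.Agent.TH176.FB.mem_pow_iff_vanishes (hv i) ((mem_homogeneousSubmodule _ _).2 hF)
  constructor
  · rintro ⟨h1, h2⟩
    exact ⟨h1, fun i => (key h1 i).1 (h2 i)⟩
  · rintro ⟨h1, h2⟩
    exact ⟨h1, fun i => (key h1 i).2 (h2 i)⟩

theorem of_emp {n k d : ℕ} {m : Fin k → ℕ}
    (h : Pool.Agent.Y55.Col.Emp (n + 1) (d + 1) ((Finset.univ : Finset (Fin k)).val.map m)) :
    Generally (fun P : Fin k → ℙ ℂ (Fin (n + 1 + 1) → ℂ) =>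
      forms d m P = ⊥ ∧ ImposesMaximalConditions d m P) := by
  obtain ⟨D, hD, h⟩ := (Pool.Agent.Y55.Col.general_of_emp h).and
    (Pool.Agent.H938R2.forGeneral_ne_zero (by omega))
  refine generally_of_poly D hD fun v hv hp => ?_
  obtain ⟨h1, h2⟩ := h v hp
  have h3 := Pool.Agent.H938R2.finrank_forms_ge (n + 1) d m v h2
  unfold ImposesMaximalConditions
  rw [forms_eq _ v hv, h1, finrank_bot]
  rw [h1, finrank_bot, zero_add] at h3
  refine ⟨rfl, ?_⟩
  rw [max_eq_left]
  · simp
  · rw [sub_nonpos]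
    exact_mod_cast h3

theorem of_ind {n k d : ℕ} {m : Fin k → ℕ}
    (h : Pool.Agent.Y55.Col.Ind n (d + 1) ((Finset.univ : Finset (Fin k)).val.map m)) :
    Generally (fun P : Fin k → ℙ ℂ (Fin (n + 1 + 1) → ℂ) =>
      Module.finrank ℂ (forms d m P) + ∑ i, (m i + (n + 1) - 1).choose (n + 1) =
        (d + (n + 1)).choose (n + 1) ∧ ImposesMaximalConditions d m P) := by
  obtain ⟨D, hD, h⟩ := Pool.Agent.Y55.Col.general_of_ind h
  refine generally_of_poly D hD fun v hv hp => ?_
  have h1 : Module.finrank ℂ (Pool.Agent.H938R2.forms (n + 1 + 1) d m v) +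
      ∑ i, (m i + n).choose (n + 1) = (d + (n + 1)).choose (n + 1) := h v hp
  have e : ∀ i, m i + (n + 1) - 1 = m i + n := fun i => by omega
  unfold ImposesMaximalConditions
  rw [forms_eq _ v hv]
  simp only [e]
  refine ⟨h1, ?_⟩
  have h2 : (Module.finrank ℂ (Pool.Agent.H938R2.forms (n + 1 + 1) d m v) : ℤ) +
      ∑ i, ((m i + n).choose (n + 1) : ℤ) = ((d + (n + 1)).choose (n + 1) : ℤ) := by
    exact_mod_cast h1
  rw [max_eq_right]
  · linarith
  · have : (0 : ℤ) ≤ (Module.finrank ℂ (Pool.Agent.H938R2.forms (n + 1 + 1) d m v) : ℤ) :=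
      Int.natCast_nonneg _
    linarith

/-- Let `r ≥ 2`, `1 ≤ m i ≤ M` for all `i`, and let every multiplicity `m i` occur at least
`(5 / 2) (2 M / m i) ^ r` times. If `max (d, 6 M) ^ r < ∑ (m i) ^ r`, then for general points of `ℙ^r`
there are no forms of degree `d` with the multiplicities `m i`. If `d ≥ 6 (M + 3 r - 2)` and
`∑ (m i + 3 r - 2) ^ r ≤ d ^ r`, the conditions are independent. In both cases `Γ` imposes maximal
conditions in degree `d`. -/
theorem result (r k d M : ℕ) (hr : 2 ≤ r) (hk : 1 ≤ k) (m : Fin k → ℕ)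
    (hm : ∀ i, 1 ≤ m i ∧ m i ≤ M)
    (hc : ∀ i, 5 * (2 * M) ^ r ≤ 2 * (m i) ^ r * (Finset.univ.filter fun j => m j = m i).card) :
    ((max d (6 * M)) ^ r < ∑ i, (m i) ^ r →
      Generally (fun P : Fin k → ℙ ℂ (Fin (r + 1) → ℂ) =>
        forms d m P = ⊥ ∧ ImposesMaximalConditions d m P)) ∧
    (6 * (M + (3 * r - 2)) ≤ d → ∑ i, (m i + (3 * r - 2)) ^ r ≤ d ^ r →
      Generally (fun P : Fin k → ℙ ℂ (Fin (r + 1) → ℂ) =>
        Module.finrank ℂ (forms d m P) + ∑ i, (m i + r - 1).choose r = (d + r).choose r ∧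
          ImposesMaximalConditions d m P)) := by
  classical
  obtain ⟨n, rfl⟩ : ∃ n, r = n + 1 := ⟨r - 1, by omega⟩
  have hn : 1 ≤ n := by omega
  have e3 : 3 * (n + 1) - 2 = 3 * n + 1 := by omega
  rw [e3]
  have i0 : Fin k := ⟨0, hk⟩
  have hM0 : 0 < M := (hm i0).1.trans (hm i0).2
  obtain ⟨A, hA⟩ : ∃ A : Multiset ℕ, A = (Finset.univ : Finset (Fin k)).val.map m := ⟨_, rfl⟩
  have hmem : ∀ a ∈ A, ∃ i, m i = a := by
    intro a ha
    rw [hA] at ha
    obtain ⟨i, _, rfl⟩ := Multiset.mem_map.1 ha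
    exact ⟨i, rfl⟩
  have hcount : ∀ i, A.count (m i) = (Finset.univ.filter fun j => m j = m i).card := by
    intro i
    rw [hA, Multiset.count_map]
    simp only [eq_comm]
    rfl
  have hps : Run7.h526.BW.ps (n + 1) A = ((∑ i, (m i) ^ (n + 1) : ℕ) : ℝ) := by
    rw [hA]
    unfold Run7.h526.BW.ps
    rw [Multiset.map_map]
    push_cast
    rfl
  have hqs : Run7.h526.BW.qs n A = ((∑ i, (m i + (3 * n + 1)) ^ (n + 1) : ℕ) : ℝ) := by
    rw [hA]
    unfold Run7.h526.BW.qs
    rw [Multiset.map_map]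
    push_cast
    rfl
  constructor
  · intro h
    refine of_emp ?_
    rw [← hA]
    refine Run7.h526.BW.emp_rep hn (b := M) (D := ((max d (6 * M) : ℕ) : ℝ))
      (by exact_mod_cast hM0) ?_ ?_ ?_ ?_ ?_ ?_
    · intro a ha
      obtain ⟨i, rfl⟩ := hmem a ha
      exact_mod_cast (hm i).2
    · intro a ha
      obtain ⟨i, rfl⟩ := hmem a ha
      exact (hm i).1
    · intro a ha
      obtain ⟨i, rfl⟩ := hmem a ha
      rw [hcount i]
      exact_mod_cast hc i
    · exact_mod_cast le_max_right d (6 * M)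
    · exact_mod_cast le_max_left d (6 * M)
    · rw [hps]
      exact_mod_cast h
  · intro hd h
    refine of_ind ?_
    rw [← hA]
    refine Run7.h526.BW.ind_rep hn (b := (M : ℝ) + (3 * n + 1)) (by positivity) ?_ ?_ ?_ ?_ ?_
    · intro h0
      have h1 := congrArg Multiset.card h0
      rw [hA, Multiset.card_map, Finset.card_val, Finset.card_univ, Fintype.card_fin,
        Multiset.card_zero] at h1
      omega
    · intro a ha
      obtain ⟨i, rfl⟩ := hmem a ha
      have : (m i : ℝ) ≤ M := by exact_mod_cast (hm i).2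
      linarith
    · intro a ha
      obtain ⟨i, rfl⟩ := hmem a ha
      rw [hcount i]
      have h1 := hc i
      obtain ⟨c, hcc⟩ : ∃ c, c = (Finset.univ.filter fun j => m j = m i).card := ⟨_, rfl⟩
      rw [← hcc] at h1 ⊢
      have h2 : 5 * (2 * (M + (3 * n + 1))) ^ (n + 1) ≤
          2 * (m i + (3 * n + 1)) ^ (n + 1) * c := by
        have h3 : 0 < (m i) ^ (n + 1) := pow_pos (hm i).1 _
        refine Nat.le_of_mul_le_mul_left ?_ h3
        have h4 : (m i * (M + (3 * n + 1))) ^ (n + 1) ≤ (M * (m i + (3 * n + 1))) ^ (n + 1) := by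
          refine Nat.pow_le_pow_left ?_ _
          have := Nat.mul_le_mul_right (3 * n + 1) (hm i).2
          have e1 : m i * (M + (3 * n + 1)) = m i * M + m i * (3 * n + 1) := by ring
          have e2 : M * (m i + (3 * n + 1)) = m i * M + M * (3 * n + 1) := by ring
          omega
        calc (m i) ^ (n + 1) * (5 * (2 * (M + (3 * n + 1))) ^ (n + 1))
            = 5 * 2 ^ (n + 1) * (m i * (M + (3 * n + 1))) ^ (n + 1) := by
              rw [mul_pow 2, mul_pow (m i)]; ring
          _ ≤ 5 * 2 ^ (n + 1) * (M * (m i + (3 * n + 1))) ^ (n + 1) := Nat.mul_le_mul_left _ h4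
          _ = (5 * (2 * M) ^ (n + 1)) * (m i + (3 * n + 1)) ^ (n + 1) := by
              rw [mul_pow 2, mul_pow M]; ring
          _ ≤ (2 * (m i) ^ (n + 1) * c) * (m i + (3 * n + 1)) ^ (n + 1) :=
              Nat.mul_le_mul_right _ h1
          _ = _ := by ring
      exact_mod_cast h2
    · exact_mod_cast hd
    · rw [hqs]
      exact_mod_cast h

end Pool.Agent.Results.MP_1dafdd_ag.RepeatedMultiplicities
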